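import Mathlib

/-!
# MP_72f8f6_ag: the conductor of `(I, f)` need not lie in `(C(I), f)`

We give a counterexample to Q1.  Over any field `K` let
`R = K[x,y,u,v]/(xy, xu, yv, u², uv, v²)`, `I = (u, v)`, `f = x - y`.  Then `I ^ j : f = I ^ j`
for all `j`, and `x ∈ C((I,f))`, but `x ∉ C(I) + f R`.

The ring `R` is realised as the subring of `K[X][ε] × K[X][ε]` generated over `K` by
`x = (0, X)`, `y = (X, 0)`, `u = (ε, 0)`, `v = (0, ε)`.
-/

namespace Pool.Agent.Results.MP_72f8f6_ag.NotContained

open MvPolynomial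

section Defs

variable {R : Type*} [CommRing R] {m : ℕ}

/-- The `R`-algebra map `φ : T = R[y_1, …, y_m] → R[t]`, `y_j ↦ f_j t`, whose image is the Rees
algebra of `I = (f_1, …, f_m)`. -/
noncomputable def reesMap (F : Fin m → R) : MvPolynomial (Fin m) R →ₐ[R] Polynomial R :=
  MvPolynomial.aeval fun j => Polynomial.C (F j) * Polynomial.X

/-- The ideal `L` of `T` generated by the linear forms `∑ a_i y_i` with `∑ a_i f_i = 0`. -/
noncomputable def linIdeal (F : Fin m → R) : Ideal (MvPolynomial (Fin m) R) :=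
  Ideal.span {P | ∃ a : Fin m → R, ∑ i, a i * F i = 0 ∧ P = ∑ i, C (a i) * X i}

/-- The conductor `C(I) = L :_R J`, `J = ker φ`, for `I = (f_1, …, f_m)`: the elements `r` of `R`
with `r J ⊆ L`. -/
noncomputable def conductor (F : Fin m → R) : Ideal R where
  carrier := {r | ∀ P ∈ RingHom.ker (reesMap F), C r * P ∈ linIdeal F}
  add_mem' := by
    intro a b ha hb P hP
    rw [map_add, add_mul]
    exact add_mem (ha P hP) (hb P hP)
  zero_mem' := by
    intro P _
    rw [map_zero, zero_mul]
    exact zero_mem _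
  smul_mem' := by
    intro c a ha P hP
    rw [smul_eq_mul, map_mul, mul_assoc]
    exact Ideal.mul_mem_left _ _ (ha P hP)

lemma mem_conductor {F : Fin m → R} {r : R} :
    r ∈ conductor F ↔ ∀ P : MvPolynomial (Fin m) R, reesMap F P = 0 → C r * P ∈ linIdeal F :=
  Iff.rfl

end Defs

section Abstract

variable {R : Type*} [CommRing R]

/-- The ideal `(U², UV, V²)` of `R[U, V, W]`. -/
noncomputable def sq (R : Type*) [CommRing R] : Ideal (MvPolynomial (Fin 3) R) :=
  Ideal.span {X 0 * X 0, X 0 * X 1, X 1 * X 1}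

lemma sq0 : (X 0 * X 0 : MvPolynomial (Fin 3) R) ∈ sq R := Ideal.subset_span (by simp)
lemma sq1 : (X 0 * X 1 : MvPolynomial (Fin 3) R) ∈ sq R := Ideal.subset_span (by simp)
lemma sq2 : (X 1 * X 1 : MvPolynomial (Fin 3) R) ∈ sq R := Ideal.subset_span (by simp)

/-- Modulo `(U², UV, V²)` every polynomial in `U, V, W` is `p₀(W) + U p₁(W) + V p₂(W)`. -/
lemma decomp (P : MvPolynomial (Fin 3) R) :
    ∃ p0 p1 p2 : Polynomial R,
      P - (Polynomial.aeval (X 2) p0 + X 0 * Polynomial.aeval (X 2) p1
        + X 1 * Polynomial.aeval (X 2) p2) ∈ sq R := by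
  induction P using MvPolynomial.induction_on with
  | C a =>
    refine ⟨Polynomial.C a, 0, 0, ?_⟩
    simp
  | add p q hp hq =>
    obtain ⟨a0, a1, a2, ha⟩ := hp
    obtain ⟨b0, b1, b2, hb⟩ := hq
    refine ⟨a0 + b0, a1 + b1, a2 + b2, ?_⟩
    have := add_mem ha hb
    convert this using 1
    simp only [map_add]
    ring
  | mul_X p i hp =>
    obtain ⟨a0, a1, a2, ha⟩ := hp
    fin_cases i
    · refine ⟨0, a0, 0, ?_⟩
      have h1 := Ideal.mul_mem_right (X 0) _ ha
      have h2 := Ideal.mul_mem_left _ (Polynomial.aeval (X 2) a1) (sq0 (R := R))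
      have h3 := Ideal.mul_mem_left _ (Polynomial.aeval (X 2) a2) (sq1 (R := R))
      have := add_mem h1 (add_mem h2 h3)
      convert this using 1
      simp only [map_zero]
      change p * X 0 - _ = _
      ring
    · refine ⟨0, 0, a0, ?_⟩
      have h1 := Ideal.mul_mem_right (X 1) _ ha
      have h2 := Ideal.mul_mem_left _ (Polynomial.aeval (X 2) a1) (sq1 (R := R))
      have h3 := Ideal.mul_mem_left _ (Polynomial.aeval (X 2) a2) (sq2 (R := R))
      have := add_mem h1 (add_mem h2 h3)
      convert this using 1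
      simp only [map_zero]
      change p * X 1 - _ = _
      ring
    · refine ⟨a0 * Polynomial.X, a1 * Polynomial.X, a2 * Polynomial.X, ?_⟩
      have h1 := Ideal.mul_mem_right (X 2) _ ha
      convert h1 using 1
      simp only [map_mul, Polynomial.aeval_X]
      change p * X 2 - _ = _
      ring

lemma reesMap_X {m : ℕ} (F : Fin m → R) (j : Fin m) :
    reesMap F (X j) = Polynomial.C (F j) * Polynomial.X := by
  simp [reesMap]

lemma coeff_aeval (g : R) (p : Polynomial R) (k : ℕ) :
    (Polynomial.aeval (Polynomial.C g * Polynomial.X) p).coeff k = p.coeff k * g ^ k := by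
  have : Polynomial.aeval (Polynomial.C g * Polynomial.X) p
      = p.comp (Polynomial.C g * Polynomial.X) := rfl
  rw [this, Polynomial.comp_C_mul_X_coeff]

variable {x y u v : R}

/-- Membership of a linear form with three coefficients in `L`. -/
lemma lin_mem (a b c : R) (F : Fin 3 → R) (h : a * F 0 + b * F 1 + c * F 2 = 0) :
    C a * X 0 + C b * X 1 + C c * X 2 ∈ linIdeal F := by
  apply Ideal.subset_span
  refine ⟨![a, b, c], ?_, ?_⟩
  · rw [Fin.sum_univ_three]; simpa using h
  · rw [Fin.sum_univ_three]; simp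

/-- The positive half: `x ∈ C((u, v, x - y))`. -/
lemma mem_big (huu : u * u = 0) (huv : u * v = 0) (hvv : v * v = 0) (hxu : x * u = 0)
    (hyv : y * v = 0) (hf : ∀ r, (x - y) * r = 0 → r = 0)
    (hfI : ∀ r, (x - y) * r ∈ Ideal.span {u, v} → r ∈ Ideal.span {u, v})
    (hd : ∀ a b, a * u + b * v = 0 → b * v = 0) :
    x ∈ conductor (![u, v, x - y] : Fin 3 → R) := by
  rw [mem_conductor]
  intro P hP
  set F : Fin 3 → R := ![u, v, x - y] with hF
  have hF0 : F 0 = u := rfl
  have hF1 : F 1 = v := rfl
  have hF2 : F 2 = x - y := rfl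
  -- basic members of L
  have h1 : C x * X 0 ∈ linIdeal F := by
    have := lin_mem x 0 0 F (by rw [hF0]; simp [hxu])
    simpa using this
  have h2 : C y * X 1 ∈ linIdeal F := by
    have := lin_mem 0 y 0 F (by rw [hF1]; simp [hyv])
    simpa using this
  have h3 : C v * X 1 ∈ linIdeal F := by
    have := lin_mem 0 v 0 F (by rw [hF1]; simp [hvv])
    simpa using this
  have h4 : C (x - y) * X 1 - C v * X 2 ∈ linIdeal F := by
    have := lin_mem 0 (x - y) (-v) F (by rw [hF1, hF2]; ring)
    convert this using 1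
    simp only [map_zero, map_neg]
    ring
  have hsq : ∀ Q ∈ sq R, C x * Q ∈ linIdeal F := by
    intro Q hQ
    have hle : sq R ≤ Submodule.comap (LinearMap.mulLeft (MvPolynomial (Fin 3) R) (C x))
        (linIdeal F) := by
      refine Ideal.span_le.mpr ?_
      rintro Z hZ
      simp only [Set.mem_insert_iff, Set.mem_singleton_iff] at hZ
      rw [SetLike.mem_coe, Submodule.mem_comap, LinearMap.mulLeft_apply]
      rcases hZ with rfl | rfl | rfl
      · rw [← mul_assoc]; exact Ideal.mul_mem_right _ _ h1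
      · rw [← mul_assoc]; exact Ideal.mul_mem_right _ _ h1
      · have := add_mem (add_mem (Ideal.mul_mem_right (X 1) _ h4) (Ideal.mul_mem_right (X 2) _ h3))
          (Ideal.mul_mem_right (X 1) _ h2)
        convert this using 1
        simp only [map_sub]
        ring
    have := hle hQ
    rwa [Submodule.mem_comap, LinearMap.mulLeft_apply] at this
  have hsq0 : ∀ Q ∈ sq R, reesMap F Q = 0 := by
    intro Q hQ
    have hle : sq R ≤ RingHom.ker (reesMap F) := by
      refine Ideal.span_le.mpr ?_
      rintro Z hZ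
      simp only [Set.mem_insert_iff, Set.mem_singleton_iff] at hZ
      rw [SetLike.mem_coe, RingHom.mem_ker]
      rcases hZ with rfl | rfl | rfl
      · rw [map_mul, reesMap_X, hF0]
        rw [show Polynomial.C u * Polynomial.X * (Polynomial.C u * Polynomial.X)
          = Polynomial.C (u * u) * Polynomial.X ^ 2 by rw [map_mul]; ring, huu]
        simp
      · rw [map_mul, reesMap_X, reesMap_X, hF0, hF1]
        rw [show Polynomial.C u * Polynomial.X * (Polynomial.C v * Polynomial.X)
          = Polynomial.C (u * v) * Polynomial.X ^ 2 by rw [map_mul]; ring, huv]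
        simp
      · rw [map_mul, reesMap_X, hF1]
        rw [show Polynomial.C v * Polynomial.X * (Polynomial.C v * Polynomial.X)
          = Polynomial.C (v * v) * Polynomial.X ^ 2 by rw [map_mul]; ring, hvv]
        simp
    exact hle hQ
  obtain ⟨p0, p1, p2, hdec⟩ := decomp P
  have hker : Polynomial.aeval (Polynomial.C (x - y) * Polynomial.X) p0
      + (Polynomial.C u * Polynomial.X) *
          Polynomial.aeval (Polynomial.C (x - y) * Polynomial.X) p1
      + (Polynomial.C v * Polynomial.X) *
          Polynomial.aeval (Polynomial.C (x - y) * Polynomial.X) p2 = 0 := by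
    have h := hsq0 _ hdec
    rw [map_sub, hP, zero_sub, neg_eq_zero] at h
    have e : ∀ p : Polynomial R, reesMap F (Polynomial.aeval (X 2) p)
        = Polynomial.aeval (Polynomial.C (x - y) * Polynomial.X) p := by
      intro p
      rw [← Polynomial.aeval_algHom_apply, reesMap_X, hF2]
    simpa only [map_add, map_mul, reesMap_X, e, hF0, hF1] using h
  have hfp : ∀ (k : ℕ) (r : R), (x - y) ^ k * r = 0 → r = 0 := by
    intro k
    induction k with
    | zero => intro r hr; simpa using hr
    | succ k ih => intro r hr; exact ih r (hf _ (by rw [← mul_assoc, ← pow_succ']; exact hr))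
  have hc0 : p0.coeff 0 = 0 := by
    have h := congrArg (fun q => Polynomial.coeff q 0) hker
    simp only [Polynomial.coeff_add, coeff_aeval, mul_assoc, Polynomial.coeff_C_mul,
      Polynomial.coeff_X_mul_zero, Polynomial.coeff_zero] at h
    simpa using h
  have hck : ∀ k, (x - y) * p0.coeff (k + 1) + u * p1.coeff k + v * p2.coeff k = 0 := by
    intro k
    have h := congrArg (fun q => Polynomial.coeff q (k + 1)) hker
    simp only [Polynomial.coeff_add, coeff_aeval, mul_assoc, Polynomial.coeff_C_mul,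
      Polynomial.coeff_X_mul, Polynomial.coeff_zero] at h
    apply hfp k
    rw [← h]
    ring
  -- reduce to the main part
  have hmain : C x * (Polynomial.aeval (X 2) p0 + X 0 * Polynomial.aeval (X 2) p1
        + X 1 * Polynomial.aeval (X 2) p2) ∈ linIdeal F := by
    have hterm : ∀ k, C x * (C (p0.coeff (k + 1)) * X 2 + C (p2.coeff k) * X 1)
        ∈ linIdeal F := by
      intro k
      have hin : p0.coeff (k + 1) ∈ Ideal.span {u, v} := by
        apply hfI
        have : (x - y) * p0.coeff (k + 1) = (-p1.coeff k) * u + (-p2.coeff k) * v := by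
          linear_combination hck k
        rw [this]
        exact add_mem (Ideal.mul_mem_left _ _ (Ideal.subset_span (by simp)))
          (Ideal.mul_mem_left _ _ (Ideal.subset_span (by simp)))
      obtain ⟨b, c, hbc⟩ := Ideal.mem_span_pair.mp hin
      have hz : (c * (x - y) + p2.coeff k) * v = 0 := by
        apply hd (b * (x - y) + p1.coeff k)
        have := hck k
        rw [← hbc] at this
        linear_combination this
      have m1 : C (c * (x - y) + p2.coeff k) * X 1 ∈ linIdeal F := by
        have := lin_mem 0 (c * (x - y) + p2.coeff k) 0 F (by rw [hF1]; simp [hz])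
        simpa using this
      have hxbu : C x * C b * C u = (0 : MvPolynomial (Fin 3) R) := by
        rw [← map_mul, ← map_mul, show x * b * u = b * (x * u) by ring, hxu]; simp
      have := sub_mem (Ideal.mul_mem_left _ (C x) m1) (Ideal.mul_mem_left _ (C x * C c) h4)
      convert this using 1
      rw [← hbc]
      simp only [map_add, map_mul, map_sub]
      linear_combination (X 2) * hxbu
    have hdiv : Polynomial.aeval (X 2 : MvPolynomial (Fin 3) R) p0
        = X 2 * Polynomial.aeval (X 2) p0.divX := by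
      conv_lhs => rw [← Polynomial.divX_mul_X_add p0, hc0]
      simp [mul_comm]
    set N := max p0.divX.natDegree p2.natDegree + 1 with hN
    have e1 : Polynomial.aeval (X 2 : MvPolynomial (Fin 3) R) p0.divX
        = ∑ i ∈ Finset.range N, p0.divX.coeff i • X 2 ^ i :=
      Polynomial.aeval_eq_sum_range' (lt_of_le_of_lt (le_max_left _ _) (Nat.lt_succ_self _)) _
    have e2 : Polynomial.aeval (X 2 : MvPolynomial (Fin 3) R) p2
        = ∑ i ∈ Finset.range N, p2.coeff i • X 2 ^ i :=
      Polynomial.aeval_eq_sum_range' (lt_of_le_of_lt (le_max_right _ _) (Nat.lt_succ_self _)) _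
    have hsum : C x * (X 2 * Polynomial.aeval (X 2) p0.divX + X 1 * Polynomial.aeval (X 2) p2)
        ∈ linIdeal F := by
      rw [e1, e2, Finset.mul_sum, Finset.mul_sum, ← Finset.sum_add_distrib, Finset.mul_sum]
      refine Ideal.sum_mem _ fun k _ => ?_
      have := Ideal.mul_mem_left _ (X 2 ^ k) (hterm k)
      convert this using 1
      rw [Polynomial.coeff_divX, MvPolynomial.smul_eq_C_mul, MvPolynomial.smul_eq_C_mul]
      ring
    rw [hdiv]
    have := add_mem hsum (Ideal.mul_mem_right (Polynomial.aeval (X 2) p1) _ h1)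
    convert this using 1
    ring
  have := add_mem (hsq _ hdec) hmain
  rw [← mul_add, sub_add_cancel] at this
  exact this

lemma span_pow_eq_bot (huu : u * u = 0) (huv : u * v = 0) (hvv : v * v = 0) (j : ℕ) :
    Ideal.span {u, v} ^ (j + 1 + 1) = ⊥ := by
  have h2 : Ideal.span {u, v} * Ideal.span {u, v} = ⊥ := by
    rw [Ideal.span_pair_mul_span_pair, huu, huv, mul_comm v, huv, hvv]
    simp
  rw [add_assoc, pow_add, show (1 + 1 : ℕ) = 2 from rfl, pow_two, h2, Ideal.mul_bot]

/-- The negative half: `x ∉ C((u, v)) + (x - y)`. -/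
lemma not_mem_small {S S' : Type*} [CommRing S] [IsDomain S] [CommRing S'] [Nontrivial S'] (huu : u * u = 0) (hvv : v * v = 0)
    (π1 π2 : R →+* S) (k : S →+* S') (s : S) (hs : s ≠ 0)
    (h1 : ∀ a b, a * u + b * v = 0 → π1 a = 0) (h2 : ∀ a b, a * u + b * v = 0 → π2 b = 0)
    (hx1 : π1 x = 0) (hy1 : π1 y = s) (hx2 : π2 x = s) (hy2 : π2 y = 0)
    (hk : ∀ r, k (π1 r) = k (π2 r)) :
    x ∉ conductor (![u, v] : Fin 2 → R) ⊔ Ideal.span {x - y} := by
  intro hx
  obtain ⟨c, hc, d, hd, hcd⟩ := Submodule.mem_sup.mp hx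
  obtain ⟨r, rfl⟩ := Ideal.mem_span_singleton'.mp hd
  rw [mem_conductor] at hc
  have key1 : π1 c = 0 := by
    have hm := hc (X 0 * X 0) (by
      rw [map_mul, reesMap_X]
      rw [show (![u, v] : Fin 2 → R) 0 = u from rfl]
      rw [show Polynomial.C u * Polynomial.X * (Polynomial.C u * Polynomial.X)
          = Polynomial.C (u * u) * Polynomial.X ^ 2 by rw [map_mul]; ring, huu]
      simp)
    have hle : linIdeal (![u, v] : Fin 2 → R)
        ≤ RingHom.ker (MvPolynomial.eval₂Hom π1 (![1, 0] : Fin 2 → S)) := by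
      refine Ideal.span_le.mpr ?_
      rintro Z ⟨a, ha, rfl⟩
      rw [SetLike.mem_coe, RingHom.mem_ker]
      rw [Fin.sum_univ_two] at ha ⊢
      have := h1 (a 0) (a 1) (by simpa using ha)
      simp [this]
    have := hle hm
    rw [RingHom.mem_ker] at this
    simpa using this
  have key2 : π2 c = 0 := by
    have hm := hc (X 1 * X 1) (by
      rw [map_mul, reesMap_X]
      rw [show (![u, v] : Fin 2 → R) 1 = v from rfl]
      rw [show Polynomial.C v * Polynomial.X * (Polynomial.C v * Polynomial.X)
          = Polynomial.C (v * v) * Polynomial.X ^ 2 by rw [map_mul]; ring, hvv]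
      simp)
    have hle : linIdeal (![u, v] : Fin 2 → R)
        ≤ RingHom.ker (MvPolynomial.eval₂Hom π2 (![0, 1] : Fin 2 → S)) := by
      refine Ideal.span_le.mpr ?_
      rintro Z ⟨a, ha, rfl⟩
      rw [SetLike.mem_coe, RingHom.mem_ker]
      rw [Fin.sum_univ_two] at ha ⊢
      have := h2 (a 0) (a 1) (by simpa using ha)
      simp [this]
    have := hle hm
    rw [RingHom.mem_ker] at this
    simpa using this
  have e1 : π1 r = 0 := by
    have := congrArg π1 hcd
    rw [map_add, map_mul, map_sub, key1, hx1, hy1] at this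
    have h0 : π1 r * s = 0 := by linear_combination -this
    exact (mul_eq_zero.mp h0).resolve_right hs
  have e2 : π2 r = 1 := by
    have := congrArg π2 hcd
    rw [map_add, map_mul, map_sub, key2, hx2, hy2] at this
    have h0 : (π2 r - 1) * s = 0 := by linear_combination this
    have := (mul_eq_zero.mp h0).resolve_right hs
    linear_combination this
  have := hk r
  rw [e1, e2, map_zero, map_one] at this
  exact zero_ne_one this

end Abstract

section Ring

variable (K : Type*) [Field K]

/-- The ambient ring `K[X][ε] × K[X][ε]`. -/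
abbrev Big := DualNumber (Polynomial K) × DualNumber (Polynomial K)

/-- `x = (0, X)`. -/
noncomputable def bx : Big K := (0, TrivSqZeroExt.inl Polynomial.X)
/-- `y = (X, 0)`. -/
noncomputable def bY : Big K := (TrivSqZeroExt.inl Polynomial.X, 0)
/-- `u = (ε, 0)`. -/
noncomputable def bu : Big K := (TrivSqZeroExt.inr 1, 0)
/-- `v = (0, ε)`. -/
noncomputable def bv : Big K := (0, TrivSqZeroExt.inr 1)

/-- The `K`-algebra map `K[x,y,u,v] → K[X][ε] × K[X][ε]`. -/
noncomputable def psi : MvPolynomial (Fin 4) K →ₐ[K] Big K :=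
  MvPolynomial.aeval ![bx K, bY K, bu K, bv K]

/-- The ring of the counterexample, `K[x,y,u,v]/(xy, xu, yv, u², uv, v²)`. -/
noncomputable abbrev Rng := (psi K).range

noncomputable def rx : Rng K := ⟨bx K, X 0, by simp [psi]⟩
noncomputable def ry : Rng K := ⟨bY K, X 1, by simp [psi]⟩
noncomputable def ru : Rng K := ⟨bu K, X 2, by simp [psi]⟩
noncomputable def rv : Rng K := ⟨bv K, X 3, by simp [psi]⟩

/-- First projection to `K[X]`. -/
noncomputable def pr1 : Big K →+* Polynomial K :=
  ((TrivSqZeroExt.fstHom K (Polynomial K) (Polynomial K)).toRingHom).comp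
    (RingHom.fst (DualNumber (Polynomial K)) (DualNumber (Polynomial K)))

/-- Second projection to `K[X]`. -/
noncomputable def pr2 : Big K →+* Polynomial K :=
  ((TrivSqZeroExt.fstHom K (Polynomial K) (Polynomial K)).toRingHom).comp
    (RingHom.snd (DualNumber (Polynomial K)) (DualNumber (Polynomial K)))

variable {K}

lemma pr1_apply (p : Big K) : pr1 K p = p.1.fst := rfl
lemma pr2_apply (p : Big K) : pr2 K p = p.2.fst := rfl

lemma range_coeff (P : MvPolynomial (Fin 4) K) :
    (psi K P).1.fst.eval 0 = (psi K P).2.fst.eval 0 := by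
  induction P using MvPolynomial.induction_on with
  | C a => simp [psi]
  | add p q hp hq =>
    simp only [map_add, Prod.fst_add, Prod.snd_add, TrivSqZeroExt.fst_add, Polynomial.eval_add,
      hp, hq]
  | mul_X p i hp =>
    simp only [map_mul, Prod.fst_mul, Prod.snd_mul, TrivSqZeroExt.fst_mul, Polynomial.eval_mul,
      hp]
    congr 1
    fin_cases i <;> simp [psi, bx, bY, bu, bv]

lemma rng_coeff (r : Rng K) : (r : Big K).1.fst.eval 0 = (r : Big K).2.fst.eval 0 := by
  obtain ⟨_, P, rfl⟩ := r
  exact range_coeff P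

lemma bu_mul (p : Big K) : p * bu K = (TrivSqZeroExt.inr p.1.fst, 0) := by
  refine Prod.ext ?_ ?_
  · refine TrivSqZeroExt.ext ?_ ?_
    · simp [bu]
    · simp [bu]
  · simp [bu]

lemma bv_mul (p : Big K) : p * bv K = (0, TrivSqZeroExt.inr p.2.fst) := by
  refine Prod.ext ?_ ?_
  · simp [bv]
  · refine TrivSqZeroExt.ext ?_ ?_
    · simp [bv]
    · simp [bv]

/-- lift of a polynomial along the first projection -/
lemma exists_lift1 (β : Polynomial K) : ∃ r : Rng K, (r : Big K).1.fst = β := by
  refine ⟨⟨psi K (Polynomial.aeval (X 1) β), _, rfl⟩, ?_⟩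
  change pr1 K (psi K (Polynomial.aeval (X 1) β)) = β
  have : (TrivSqZeroExt.fstHom K (Polynomial K) (Polynomial K)).comp
      ((AlgHom.fst K (DualNumber (Polynomial K)) (DualNumber (Polynomial K))).comp
        ((psi K).comp (Polynomial.aeval (X 1)))) = AlgHom.id K _ := by
    apply Polynomial.algHom_ext
    simp [psi, bY]
  exact DFunLike.congr_fun this β

/-- lift of a polynomial along the second projection -/
lemma exists_lift2 (β : Polynomial K) : ∃ r : Rng K, (r : Big K).2.fst = β := by
  refine ⟨⟨psi K (Polynomial.aeval (X 0) β), _, rfl⟩, ?_⟩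
  change pr2 K (psi K (Polynomial.aeval (X 0) β)) = β
  have : (TrivSqZeroExt.fstHom K (Polynomial K) (Polynomial K)).comp
      ((AlgHom.snd K (DualNumber (Polynomial K)) (DualNumber (Polynomial K))).comp
        ((psi K).comp (Polynomial.aeval (X 0)))) = AlgHom.id K _ := by
    apply Polynomial.algHom_ext
    simp [psi, bx]
  exact DFunLike.congr_fun this β

lemma mem_span_of (r : Rng K) (h1 : (r : Big K).1.fst = 0) (h2 : (r : Big K).2.fst = 0) :
    r ∈ Ideal.span {ru K, rv K} := by
  obtain ⟨a, ha⟩ := exists_lift1 (r : Big K).1.snd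
  obtain ⟨b, hb⟩ := exists_lift2 (r : Big K).2.snd
  refine Ideal.mem_span_pair.mpr ⟨a, b, ?_⟩
  apply Subtype.ext
  change (a : Big K) * bu K + (b : Big K) * bv K = (r : Big K)
  rw [bu_mul, bv_mul, ha, hb]
  refine Prod.ext ?_ ?_
  · refine TrivSqZeroExt.ext ?_ ?_ <;> simp [h1]
  · refine TrivSqZeroExt.ext ?_ ?_ <;> simp [h2]

lemma fst_of_mem (r : Rng K) (h : r ∈ Ideal.span {ru K, rv K}) :
    (r : Big K).1.fst = 0 ∧ (r : Big K).2.fst = 0 := by
  obtain ⟨a, b, rfl⟩ := Ideal.mem_span_pair.mp h
  change ((a : Big K) * bu K + (b : Big K) * bv K).1.fst = 0 ∧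
    ((a : Big K) * bu K + (b : Big K) * bv K).2.fst = 0
  rw [bu_mul, bv_mul]
  simp

lemma f_mul_fst (r : Rng K) :
    (((rx K - ry K) * r : Rng K) : Big K).1.fst = - (Polynomial.X * (r : Big K).1.fst) ∧
    (((rx K - ry K) * r : Rng K) : Big K).2.fst = Polynomial.X * (r : Big K).2.fst := by
  change ((bx K - bY K) * (r : Big K)).1.fst = _ ∧ ((bx K - bY K) * (r : Big K)).2.fst = _
  constructor
  · simp [bx, bY]
  · simp [bx, bY]

lemma f_mul_snd (r : Rng K) :
    (((rx K - ry K) * r : Rng K) : Big K).1.snd = - (Polynomial.X * (r : Big K).1.snd) ∧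
    (((rx K - ry K) * r : Rng K) : Big K).2.snd = Polynomial.X * (r : Big K).2.snd := by
  change ((bx K - bY K) * (r : Big K)).1.snd = _ ∧ ((bx K - bY K) * (r : Big K)).2.snd = _
  constructor
  · simp [bx, bY]
  · simp [bx, bY]

lemma f_nzd (r : Rng K) (h : (rx K - ry K) * r = 0) : r = 0 := by
  obtain ⟨a1, a2⟩ := f_mul_fst r
  obtain ⟨b1, b2⟩ := f_mul_snd r
  rw [h] at a1 a2 b1 b2
  apply Subtype.ext
  refine Prod.ext (TrivSqZeroExt.ext ?_ ?_) (TrivSqZeroExt.ext ?_ ?_)
  · simpa using a1
  · simpa using b1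
  · simpa using a2
  · simpa using b2

lemma f_nzd_mod (r : Rng K) (h : (rx K - ry K) * r ∈ Ideal.span {ru K, rv K}) :
    r ∈ Ideal.span {ru K, rv K} := by
  obtain ⟨h1, h2⟩ := fst_of_mem _ h
  obtain ⟨a1, a2⟩ := f_mul_fst r
  rw [h1] at a1
  rw [h2] at a2
  apply mem_span_of
  · simpa using a1
  · simpa using a2

lemma syz (a b : Rng K) (h : a * ru K + b * rv K = 0) :
    (a : Big K).1.fst = 0 ∧ (b : Big K).2.fst = 0 := by
  have h' : (a : Big K) * bu K + (b : Big K) * bv K = 0 := congrArg Subtype.val h
  rw [bu_mul, bv_mul] at h'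
  have e1 := congrArg (fun p : Big K => p.1.snd) h'
  have e2 := congrArg (fun p : Big K => p.2.snd) h'
  constructor
  · simpa using e1
  · simpa using e2

lemma mul_uu : ru K * ru K = 0 := by
  apply Subtype.ext
  change bu K * bu K = 0
  rw [bu_mul]; simp [bu]

lemma mul_uv : ru K * rv K = 0 := by
  apply Subtype.ext
  change bu K * bv K = 0
  rw [bv_mul]; simp [bu]

lemma mul_vv : rv K * rv K = 0 := by
  apply Subtype.ext
  change bv K * bv K = 0
  rw [bv_mul]; simp [bv]

lemma mul_xu : rx K * ru K = 0 := by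
  apply Subtype.ext
  change bx K * bu K = 0
  rw [bu_mul]; simp [bx]

lemma mul_yv : ry K * rv K = 0 := by
  apply Subtype.ext
  change bY K * bv K = 0
  rw [bv_mul]; simp [bY]

end Ring

/-- **Disproof of Q1 of MP_72f8f6_ag.**  Over every field `K` there are a Noetherian ring `R`
(a `K`-algebra of finite type), an ideal `I = (F 0, F 1)` of `R` and `f ∈ R` with
`I ^ j : f = I ^ j` for all `j ≥ 0`, together with an element of `C((I, f))` that does not lie in
`C(I) + f R`. -/
theorem result (K : Type) [Field K] :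
    ∃ (R : Type) (_ : CommRing R) (_ : Algebra K R), Algebra.FiniteType K R ∧ IsNoetherianRing R ∧
      ∃ (F : Fin 2 → R) (f : R),
        (∀ (j : ℕ) (r : R), r * f ∈ Ideal.span (Set.range F) ^ j ↔
          r ∈ Ideal.span (Set.range F) ^ j) ∧
        ∃ c : R, c ∈ conductor (Fin.snoc F f : Fin 3 → R) ∧
          c ∉ conductor F ⊔ Ideal.span {f} := by
  refine ⟨Rng K, inferInstance, inferInstance, ?_, inferInstance, ![ru K, rv K], rx K - ry K,
    ?_, rx K, ?_, ?_⟩
  · exact Algebra.FiniteType.of_surjective (psi K).rangeRestrict (psi K).rangeRestrict_surjective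
  · have hI : Ideal.span (Set.range ![ru K, rv K]) = Ideal.span {ru K, rv K} := by
      congr 1
      ext z
      simp [or_comm]
    rw [hI]
    intro j r
    refine ⟨fun h => ?_, fun h => Ideal.mul_mem_right _ _ h⟩
    rw [mul_comm] at h
    rcases j with _ | _ | j
    · simp
    · rw [zero_add, pow_one] at h ⊢
      exact f_nzd_mod r h
    · have hz := span_pow_eq_bot (mul_uu (K := K)) mul_uv mul_vv j
      rw [hz] at h ⊢
      rw [Ideal.mem_bot] at h ⊢
      exact f_nzd r h
  · have : (Fin.snoc ![ru K, rv K] (rx K - ry K) : Fin 3 → Rng K)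
        = ![ru K, rv K, rx K - ry K] := by
      funext i
      fin_cases i <;> rfl
    rw [this]
    refine mem_big mul_uu mul_uv mul_vv mul_xu mul_yv f_nzd f_nzd_mod ?_
    intro a b h
    have := (syz a b h).2
    apply Subtype.ext
    change (b : Big K) * bv K = 0
    rw [bv_mul, this]
    simp
  · refine not_mem_small mul_uu mul_vv ((pr1 K).comp (psi K).range.val.toRingHom)
      ((pr2 K).comp (psi K).range.val.toRingHom) (Polynomial.evalRingHom 0) Polynomial.X
      Polynomial.X_ne_zero ?_ ?_ ?_ ?_ ?_ ?_ ?_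
    · intro a b h; exact (syz a b h).1
    · intro a b h; exact (syz a b h).2
    · change pr1 K (bx K) = 0; simp [pr1_apply, bx]
    · change pr1 K (bY K) = _; simp [pr1_apply, bY]
    · change pr2 K (bx K) = _; simp [pr2_apply, bx]
    · change pr2 K (bY K) = 0; simp [pr2_apply, bY]
    · intro r; exact rng_coeff r

end Pool.Agent.Results.MP_72f8f6_ag.NotContained
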